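import Mathlib

/-!
# Every virtually free group has property (LR): definitions and statements of the parts (helper116)
-/

set_option autoImplicit false

open Pointwise

namespace Pool.Agent.N116.LR

/-! ## Cuts in graphs -/

/-- The edge boundary of a set of vertices. -/
def bd {V : Type} (T : SimpleGraph V) (A : Set V) : Set (Sym2 V) :=
  {e | ∃ v w, e = s(v, w) ∧ T.Adj v w ∧ v ∈ A ∧ w ∉ A}

/-- `A` is connected in `T` (there is an edge between the two parts of any partition of `A`). -/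
def Cn {V : Type} (T : SimpleGraph V) (A : Set V) : Prop :=
  ∀ B : Set V, B ⊆ A → B.Nonempty → (A \ B).Nonempty → ∃ v ∈ B, ∃ w ∈ A \ B, T.Adj v w

/-- Both sides of the cut are connected. -/
def Tight {V : Type} (T : SimpleGraph V) (A : Set V) : Prop := Cn T A ∧ Cn T Aᶜ

/-- The two cuts are nested (one of the four corners is empty). -/
def Nst {V : Type} (A B : Set V) : Prop := A ⊆ B ∨ A ⊆ Bᶜ ∨ Aᶜ ⊆ B ∨ Aᶜ ⊆ Bᶜ

/-- A point: an ultrafilter on the Boolean ring of the cuts with finite boundary. -/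
def IsPt {V : Type} (T : SimpleGraph V) (ω : Set V → Prop) : Prop :=
  (∀ A, (bd T A).Finite → (ω Aᶜ ↔ ¬ ω A)) ∧
  (∀ A B, (bd T A).Finite → (bd T B).Finite → (ω (A ∩ B) ↔ (ω A ∧ ω B)))

/-- The members of `C` crossing `X`. -/
def crs {V : Type} (C : Set (Set V)) (X : Set V) : Set (Set V) := {E | E ∈ C ∧ ¬ Nst E X}

/-- A1: finitely many tight cuts of given size contain a given edge. -/
def S_A1 : Prop := ∀ (V : Type) (T : SimpleGraph V) (e : Sym2 V) (n : ℕ),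
  {A : Set V | (bd T A).Finite ∧ (bd T A).ncard = n ∧ Tight T A ∧ e ∈ bd T A}.Finite

/-- A2: submodularity of the boundary. -/
def S_A2 : Prop := ∀ (V : Type) (T : SimpleGraph V) (A B : Set V),
  (bd T A).Finite → (bd T B).Finite →
    (bd T Aᶜ = bd T A) ∧ (bd T (A ∩ B)).Finite ∧ (bd T (A ∪ B)).Finite ∧
    (bd T (A ∩ B)).ncard + (bd T (A ∪ B)).ncard ≤ (bd T A).ncard + (bd T B).ncard

/-- A3: finiteness of the set of tight cuts of bounded size which separate two vertices, or which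
cross a given cut. -/
def S_A3 : Prop := ∀ (V : Type) (T : SimpleGraph V) (N : ℕ), Cn T Set.univ →
  (∀ v w : V, {A : Set V | (bd T A).Finite ∧ (bd T A).ncard ≤ N ∧ Tight T A ∧ v ∈ A ∧ w ∉ A}.Finite) ∧
  (∀ B : Set V, (bd T B).Finite →
    {A : Set V | ((bd T A).Finite ∧ (bd T A).ncard ≤ N ∧ Tight T A) ∧ ¬ Nst A B}.Finite)

/-- A4: opposite corners of two crossing cuts cross fewer members of `C`. -/
def S_A4 : Prop := ∀ (V : Type) (C : Set (Set V)) (A B : Set V), A ∈ C → B ∈ C → ¬ Nst A B →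
  (crs C A).Finite → (crs C B).Finite →
    (crs C (A ∩ B)).Finite ∧ (crs C (Aᶜ ∩ Bᶜ)).Finite ∧
    (crs C (A ∩ B)).ncard + (crs C (Aᶜ ∩ Bᶜ)).ncard < (crs C A).ncard + (crs C B).ncard

/-- A5: a cut of minimal size separating two points is tight. -/
def S_A5 : Prop := ∀ (V : Type) (T : SimpleGraph V) (ξ η : Set V → Prop) (A : Set V),
  Cn T Set.univ → IsPt T ξ → IsPt T η → (bd T A).Finite → ¬ (ξ A ↔ η A) →
  (∀ B : Set V, (bd T B).Finite → ¬ (ξ B ↔ η B) → (bd T A).ncard ≤ (bd T B).ncard) →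
  Tight T A

/-- NEST: canonical nested families of cuts. -/
def S_NEST : Prop := ∀ (V Γ : Type) [Group Γ] [MulAction Γ V] (T : SimpleGraph V) (N : ℕ)
  (P : Set ((Set V → Prop) × (Set V → Prop))),
  Cn T Set.univ →
  (∀ (g : Γ) (v w : V), T.Adj v w → T.Adj (g • v) (g • w)) →
  (∀ p ∈ P, IsPt T p.1 ∧ IsPt T p.2 ∧
    ∃ A, (bd T A).Finite ∧ (bd T A).ncard ≤ N ∧ p.1 A ∧ ¬ p.2 A) →
  (∀ p ∈ P, ∀ g : Γ,
    ((fun A : Set V => p.1 (g • A)), (fun A : Set V => p.2 (g • A))) ∈ P) →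
  ∃ E : Set (Set V),
    (∀ A ∈ E, Aᶜ ∈ E) ∧
    (∀ A ∈ E, (bd T A).Finite ∧ (bd T A).Nonempty) ∧
    (∀ A ∈ E, ∀ B ∈ E, Nst A B) ∧
    (∀ A ∈ E, ∀ g : Γ, g • A ∈ E) ∧
    (∀ p ∈ P, ∃ A ∈ E, p.1 A ∧ ¬ p.2 A) ∧
    (∀ v w : V, {A : Set V | A ∈ E ∧ v ∈ A ∧ w ∉ A}.Finite)

/-- A6: the assembly. -/
def S_A6 : Prop := S_A2 → S_A3 → S_A4 → S_A5 → S_NEST

/-! ## The tree of a nested family -/

/-- TREE: the structure tree of a nested family with finite separation. `sd x` is the set of the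
cuts on whose positive side the vertex `x` lies. -/
def S_TREE : Prop := ∀ (V Γ : Type) [Group Γ] [MulAction Γ V] [Nonempty V] (E : Set (Set V)),
  (∀ A ∈ E, Aᶜ ∈ E) → (∀ A ∈ E, A.Nonempty) → (∀ A ∈ E, ∀ B ∈ E, Nst A B) →
  (∀ A ∈ E, ∀ g : Γ, g • A ∈ E) →
  (∀ v w : V, {A : Set V | A ∈ E ∧ v ∈ A ∧ w ∉ A}.Finite) →
  ∃ (W : Type) (_ : MulAction Γ W) (T : SimpleGraph W) (sd : W → Set (Set V)) (o : V → W),
    T.IsTree ∧ (∀ (g : Γ) (x y : W), T.Adj x y → T.Adj (g • x) (g • y)) ∧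
    (∀ v : V, ∀ A ∈ E, (A ∈ sd (o v) ↔ v ∈ A)) ∧
    (∀ x : W, ∀ A ∈ E, (Aᶜ ∈ sd x ↔ A ∉ sd x)) ∧
    (∀ x y : W, (∀ A ∈ E, (A ∈ sd x ↔ A ∈ sd y)) → x = y) ∧
    (∀ (g : Γ) (x : W), ∀ A ∈ E, (g • A ∈ sd (g • x) ↔ A ∈ sd x)) ∧
    (∀ x y : W, {A : Set V | A ∈ E ∧ A ∈ sd x ∧ A ∉ sd y}.Finite) ∧
    (∀ x y : W, T.Adj x y → ∃ A ∈ E, A ∈ sd x ∧ A ∉ sd y ∧
      ∀ B ∈ E, B ≠ A → B ≠ Aᶜ → (B ∈ sd x ↔ B ∈ sd y))

/-! ## Homomorphisms from actions on trees -/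

/-- The product of the labels along a walk (last step first). -/
def wl {W M : Type} [Group M] {T : SimpleGraph W} (lam : W → W → M) :
    ∀ {x y : W}, T.Walk x y → M
  | _, _, .nil => 1
  | _, _, @SimpleGraph.Walk.cons _ _ x y _ _ p => wl lam p * lam x y

/-- BS: the homomorphism defined by a cocycle `b` and an equivariant parallel transport `lam`
along the edges of a tree. -/
def S_BS : Prop := ∀ (Γ W M : Type) [Group Γ] [MulAction Γ W] [Group M] (T : SimpleGraph W)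
  (b : Γ → W → M) (lam : W → W → M) (v0 : W),
  T.IsTree → (∀ (g : Γ) (x y : W), T.Adj x y → T.Adj (g • x) (g • y)) →
  (∀ (g h : Γ) (x : W), b (g * h) x = b g (h • x) * b h x) →
  (∀ x y : W, T.Adj x y → lam y x = (lam x y)⁻¹) →
  (∀ (g : Γ) (x y : W), T.Adj x y → lam (g • x) (g • y) * b g x = b g y * lam x y) →
  ∃ Θ : Γ →* M, ∀ (g : Γ) (p : T.Walk (g • v0) v0), Θ g = wl lam p * b g v0

/-! ## Free groups with permutation actions -/

/-- The action on the free group induced by an action on the basis. -/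
def pa (Q X : Type) [Group Q] [MulAction Q X] : Q →* MulAut (FreeGroup X) where
  toFun q := FreeGroup.freeGroupCongr (MulAction.toPerm q)
  map_one' := by
    refine MulEquiv.ext fun x => ?_
    have h : (FreeGroup.map (fun x : X => (1 : Q) • x)) = MonoidHom.id (FreeGroup X) :=
      FreeGroup.ext_hom _ _ (by intro a; simp)
    exact DFunLike.congr_fun h x
  map_mul' a c := by
    refine MulEquiv.ext fun x => ?_
    have h : (FreeGroup.map (fun x : X => (a * c) • x)) =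
        (FreeGroup.map (fun x : X => a • x)).comp (FreeGroup.map (fun x : X => c • x)) :=
      FreeGroup.ext_hom _ _ (by intro y; simp [mul_smul])
    exact DFunLike.congr_fun h x

/-- The permutation action on words. -/
theorem pa_apply (Q X : Type) [Group Q] [MulAction Q X] (q : Q) (w : FreeGroup X) :
    pa Q X q w = FreeGroup.map (fun x : X => q • x) w := rfl

/-- FP: crossed homomorphisms from a finite group to a free group whose basis is permuted are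
principal (equivalently: finite subgroups over `C` of `F(X) ⋊ C` are conjugate to standard ones). -/
def S_FP : Prop := ∀ (C X : Type) [Group C] [Finite C] [MulAction C X] (θ : C → FreeGroup X),
  (∀ c d : C, θ (c * d) = θ c * pa C X c (θ d)) →
  ∃ f : FreeGroup X, ∀ c : C, θ c = f * (pa C X c f)⁻¹

/-- `θ` is equivariant. -/
def Eqv {K Q X : Type} [Group K] [Group Q] [MulAction Q X] (φ : Q →* MulAut K)
    (θ : K →* FreeGroup X) : Prop :=
  ∀ (q : Q) (k : K), θ (φ q k) = pa Q X q (θ k)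

/-- A homomorphism defined on a subgroup is equivariant. -/
def EqvOn {K Q X : Type} [Group K] [Group Q] [MulAction Q X] (φ : Q →* MulAut K)
    (L : Subgroup K) (θ : L →* FreeGroup X) : Prop :=
  ∀ (q : Q) (k : L) (h : φ q (k : K) ∈ L), θ ⟨φ q (k : K), h⟩ = pa Q X q (θ k)

/-- Tree data for the extension step: `K ⋊ Q` acts on a tree, `Q` fixes `v0`, the stabiliser of
`v0` in `K` is `L`, and the stabilisers in `K` of edges are trivial. -/
def ETree {K Q : Type} [Group K] [Group Q] (φ : Q →* MulAut K) (L : Subgroup K) : Prop :=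
  ∃ (W : Type) (_ : MulAction (K ⋊[φ] Q) W) (T : SimpleGraph W) (v0 : W),
    T.IsTree ∧ (∀ (g : K ⋊[φ] Q) (x y : W), T.Adj x y → T.Adj (g • x) (g • y)) ∧
    (∀ q : Q, (SemidirectProduct.inr q : K ⋊[φ] Q) • v0 = v0) ∧
    (∀ k : K, (SemidirectProduct.inl k : K ⋊[φ] Q) • v0 = v0 ↔ k ∈ L) ∧
    (∀ x y : W, T.Adj x y → ∀ k : K, (SemidirectProduct.inl k : K ⋊[φ] Q) • x = x →
      (SemidirectProduct.inl k : K ⋊[φ] Q) • y = y → k = 1)

/-- E2: extension of equivariant homomorphisms along the tree. -/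
def S_E2 : Prop := ∀ (K Q X : Type) [Group K] [Group Q] [Finite Q] [MulAction Q X]
  (φ : Q →* MulAut K) (L : Subgroup K), (∀ (q : Q), ∀ k ∈ L, φ q k ∈ L) → ETree φ L →
  ∀ θ : L →* FreeGroup X, EqvOn φ L θ →
    ∃ θ' : K →* FreeGroup X, Eqv φ θ' ∧ ∀ k : L, θ' k = θ k

/-- The number of places where `A` cuts an edge labelled by `U` is at most `N`. -/
def cutLe {K : Type} [Group K] (U : Set K) (N : ℕ) (A : Set K) : Prop :=
  {p : K × K | p.2 ∈ U ∧ ¬ (p.1 ∈ A ↔ p.1 * p.2 ∈ A)}.Finite ∧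
  {p : K × K | p.2 ∈ U ∧ ¬ (p.1 ∈ A ↔ p.1 * p.2 ∈ A)}.ncard ≤ N

/-- E1: the tree of a pair `L ≤ K`. -/
def S_E1 : Prop := ∀ (K Q : Type) [Group K] [Group Q] [Finite Q] (φ : Q →* MulAut K)
  (L : Subgroup K) (U : Set K) (N : ℕ),
  (∀ (k : K) (n : ℕ), n ≠ 0 → k ^ n = 1 → k = 1) →
  (∀ (q : Q), ∀ k ∈ L, φ q k ∈ L) → U.Finite → (∀ (q : Q), ∀ u ∈ U, φ q u ∈ U) →
  L ⊔ Subgroup.closure U = ⊤ →
  (∀ g h : K, g⁻¹ * h ∉ L → ∃ A : Set K, (∀ a : K, ∀ l ∈ L, (a * l ∈ A ↔ a ∈ A)) ∧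
    g ∈ A ∧ h ∉ A ∧ cutLe U N A) →
  (∀ x g h : K, g⁻¹ * h ∉ L → g⁻¹ * x * g ∈ L → h⁻¹ * x * h ∈ L → x = 1) →
  ETree φ L

/-- Tree data for the embedding step: `K` acts freely. -/
def FTree {K Q : Type} [Group K] [Group Q] (φ : Q →* MulAut K) : Prop :=
  ∃ (W : Type) (_ : MulAction (K ⋊[φ] Q) W) (T : SimpleGraph W) (v0 : W),
    T.IsTree ∧ (∀ (g : K ⋊[φ] Q) (x y : W), T.Adj x y → T.Adj (g • x) (g • y)) ∧
    (∀ q : Q, (SemidirectProduct.inr q : K ⋊[φ] Q) • v0 = v0) ∧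
    (∀ (x : W) (k : K), (SemidirectProduct.inl k : K ⋊[φ] Q) • x = x → k = 1)

/-- F1: the free tree of a finitely generated group with walls separating the two ends of each
element. -/
def S_F1 : Prop := ∀ (K Q : Type) [Group K] [Group Q] [Finite Q] (φ : Q →* MulAut K)
  (U : Set K) (N : ℕ),
  (∀ (k : K) (n : ℕ), n ≠ 0 → k ^ n = 1 → k = 1) →
  U.Finite → (∀ (q : Q), ∀ u ∈ U, φ q u ∈ U) → Subgroup.closure U = ⊤ →
  (∀ f : K, f ≠ 1 → ∃ A : Set K, cutLe U N A ∧ (∃ n0 : ℕ, ∀ n ≥ n0, f ^ n ∈ A) ∧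
    (∃ n0 : ℕ, ∀ n ≥ n0, f⁻¹ ^ n ∉ A)) →
  FTree φ

/-- F2: a free action on a tree gives an equivariant embedding into a free group with permuted
basis. -/
def S_F2 : Prop := ∀ (K Q : Type) [Group K] [Group Q] (φ : Q →* MulAut K),
  (∀ (k : K) (n : ℕ), n ≠ 0 → k ^ n = 1 → k = 1) → FTree φ →
  ∃ (X : Type) (_ : MulAction Q X) (θ : K →* FreeGroup X), Function.Injective θ ∧ Eqv φ θ

/-! ## Walls in free groups -/

/-- The subgroup generated by a part of the basis. -/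
def cl {B : Type} (S : Set B) : Subgroup (FreeGroup B) := Subgroup.closure (FreeGroup.of '' S)

open Classical in
/-- The reduced words which start with the letter `b`. -/
def hs {B : Type} (b : B) : Set (FreeGroup B) :=
  {y | ∃ l : List (B × Bool), y.toWord = (b, true) :: l}

open Classical in
/-- G1: each wall separates `y` and `y w` for at most `|w|` elements `y`. -/
def S_G1 : Prop := ∀ (B : Type) (b : B) (w : FreeGroup B),
  {y : FreeGroup B | ¬ (y ∈ hs b ↔ y * w ∈ hs b)}.Finite ∧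
  {y : FreeGroup B | ¬ (y ∈ hs b ↔ y * w ∈ hs b)}.ncard ≤ w.toWord.length

/-- G2: an element outside `⟨S⟩` crosses a wall of a letter outside `S`; finitely many walls
separate two elements; and `⟨S⟩` does not cross the walls of the letters outside `S`. -/
def S_G2 : Prop := ∀ (B : Type),
  (∀ (S : Set B) (w : FreeGroup B), w ∉ cl S →
    ∃ b : B, b ∉ S ∧ ∃ f : FreeGroup B, ¬ (f ∈ hs b ↔ f * w ∈ hs b)) ∧
  (∀ w : FreeGroup B, {p : B × FreeGroup B | ¬ (p.2 ∈ hs p.1 ↔ p.2 * w ∈ hs p.1)}.Finite) ∧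
  (∀ (S : Set B) (b : B), b ∉ S → ∀ d ∈ cl S, ∀ y : FreeGroup B, (y * d ∈ hs b ↔ y ∈ hs b))

/-- G4: the two ends of an element are separated by a wall. -/
def S_G4 : Prop := ∀ (B : Type) (f : FreeGroup B), f ≠ 1 → ∃ (b : B) (p : FreeGroup B),
  ((∃ n0 : ℕ, ∀ n ≥ n0, p * f ^ n ∈ hs b) ∧ (∃ n0 : ℕ, ∀ n ≥ n0, p * f⁻¹ ^ n ∉ hs b)) ∨
  ((∃ n0 : ℕ, ∀ n ≥ n0, p * f ^ n ∉ hs b) ∧ (∃ n0 : ℕ, ∀ n ≥ n0, p * f⁻¹ ^ n ∈ hs b))

/-- RET: the intersection of a subgroup `D` with `⟨S⟩` is a retract of `D`. -/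
def S_RET : Prop := ∀ (B : Type) (S : Set B) (D : Subgroup (FreeGroup B)),
  ∃ r : D →* FreeGroup B, (∀ d : D, r d ∈ D ⊓ cl S) ∧ ∀ d : D, (d : FreeGroup B) ∈ cl S → r d = d

/-- The intersection of the translates of `⟨S⟩`. -/
def KS {B Q : Type} [Group Q] (φ : Q →* MulAut (FreeGroup B)) (S : Set B) :
    Subgroup (FreeGroup B) :=
  ⨅ q : Q, (cl S).map (φ q).toMonoidHom

/-- `⟨S⟩` is invariant. -/
def Cld {B Q : Type} [Group Q] (φ : Q →* MulAut (FreeGroup B)) (S : Set B) : Prop :=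
  ∀ q : Q, ∀ x ∈ cl S, φ q x ∈ cl S

/-- KF: for invariant `⟨S⟩` and finite `C` the group `K(S ∪ C)` is generated by `⟨S⟩` and a finite
set. -/
def S_KF : Prop := ∀ (B Q : Type) [Group Q] [Finite Q] (φ : Q →* MulAut (FreeGroup B))
  (S C : Set B), Cld φ S → C.Finite →
  ∃ U : Set (FreeGroup B), U.Finite ∧ (∀ (q : Q), ∀ u ∈ U, φ q u ∈ U) ∧
    KS φ (S ∪ C) = cl S ⊔ Subgroup.closure U

/-- STEP: extension from `K(S ∪ C)` to `K(S ∪ C')`. -/
def S_STEP : Prop := ∀ (B Q X : Type) [Group Q] [Finite Q] [MulAction Q X]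
  (φ : Q →* MulAut (FreeGroup B)) (S C C' : Set B), Cld φ S → C ⊆ C' → C'.Finite →
  ∀ θ : KS φ (S ∪ C) →* FreeGroup X, EqvOn φ (KS φ (S ∪ C)) θ →
    ∃ θ' : KS φ (S ∪ C') →* FreeGroup X, EqvOn φ (KS φ (S ∪ C')) θ' ∧
      ∀ (x : FreeGroup B) (h : x ∈ KS φ (S ∪ C)) (h' : x ∈ KS φ (S ∪ C')), θ' ⟨x, h'⟩ = θ ⟨x, h⟩

/-- INJ: an equivariant embedding of `K(C)` into a free group with permuted basis. -/
def S_INJ : Prop := ∀ (B Q : Type) [Group Q] [Finite Q]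
  (φ : Q →* MulAut (FreeGroup B)) (C : Set B), C.Finite →
  ∃ (X : Type) (_ : MulAction Q X) (θ : KS φ C →* FreeGroup X),
    Function.Injective θ ∧ EqvOn φ (KS φ C) θ

/-- ALL: every equivariant homomorphism `K(C) → F(X)` extends to the whole free group. -/
def S_ALL : Prop := ∀ (B Q X : Type) [Group Q] [Finite Q] [MulAction Q X]
  (φ : Q →* MulAut (FreeGroup B)) (C : Set B), C.Finite →
  ∀ θ : KS φ C →* FreeGroup X, EqvOn φ (KS φ C) θ →
    ∃ Θ : FreeGroup B →* FreeGroup X, Eqv φ Θ ∧ ∀ x : KS φ C, Θ x = θ x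

/-- EMB: for a finite set `U` there is an equivariant homomorphism to a free group with permuted
basis which is injective on an invariant subgroup containing `U`. -/
def S_EMB : Prop := ∀ (B Q : Type) [Group Q] [Finite Q]
  (φ : Q →* MulAut (FreeGroup B)) (U : Set (FreeGroup B)), U.Finite →
  ∃ (X : Type) (_ : MulAction Q X) (Θ : FreeGroup B →* FreeGroup X) (D : Subgroup (FreeGroup B)),
    Eqv φ Θ ∧ U ⊆ D ∧ (∀ (q : Q), ∀ x ∈ D, φ q x ∈ D) ∧ (∀ x ∈ D, Θ x = 1 → x = 1)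

/-! ## Virtual retractions -/

/-- Every finitely generated subgroup is a virtual retract. -/
def LRp (G : Type) [Group G] : Prop :=
  ∀ H : Subgroup G, H.FG →
    ∃ K : Subgroup G, K.FiniteIndex ∧ H ≤ K ∧
      ∃ ρ : K →* G, (∀ k : K, ρ k ∈ H) ∧ ∀ h : G, ∀ hk : h ∈ K, h ∈ H → ρ ⟨h, hk⟩ = h

/-- LRX: `F(X) ⋊ Q` has (LR) if `Q` is finite and permutes the basis `X`. -/
def S_LRX : Prop := ∀ (Q X : Type) [Group Q] [Finite Q] [MulAction Q X],
  LRp (FreeGroup X ⋊[pa Q X] Q)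

/-- SPLIT: a virtually free group embeds into `F(B) ⋊ Q` with `Q` finite. -/
def S_SPLIT : Prop := ∀ (G : Type) [Group G], (∃ F : Subgroup G, F.FiniteIndex ∧ IsFreeGroup F) →
  ∃ (B Q : Type) (_ : Group Q) (_ : Finite Q) (φ : Q →* MulAut (FreeGroup B))
    (ι : G →* FreeGroup B ⋊[φ] Q), Function.Injective ι

/-- ORB: equivariant choice along orbits. -/
def S_ORB : Prop := ∀ (G D M : Type) [Group G] [MulAction G D] [Group M] (b : G → D → M)
  (c : G →* M),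
  (∀ (g h : G) (x : D), b (g * h) x = b g (h • x) * b h x) →
  (∀ d : D, ∃ m : M, ∀ g : G, g • d = d → m * b g d = c g * m) →
  ∃ m : D → M, ∀ (g : G) (d : D), m (g • d) * b g d = c g * m d

/-- SIG: completion of partial right multiplications. -/
def S_SIG : Prop := ∀ (G : Type) [Group G] (H : Subgroup G) (Z : Set G),
  (∀ h ∈ H, ∀ z ∈ Z, h * z ∈ Z) →
  (∃ P : Set G, P.Finite ∧ ∀ z ∈ Z, ∃ h ∈ H, ∃ p ∈ P, z = h * p) →
  ∃ σ : G → Equiv.Perm Z,
    (∀ (x : G) (z : Z) (h : (z : G) * x ∈ Z), σ x z = ⟨(z : G) * x, h⟩) ∧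
    (∀ (x : G) (h : G) (_ : h ∈ H) (z z' : Z), (z' : G) = h * (z : G) →
      ((σ x z' : Z) : G) = h * ((σ x z : Z) : G)) ∧
    (∀ (x q : G), (∀ z : G, z ∈ Z ↔ z * q ∈ Z) → ∀ (z z' : Z), (z' : G) = (z : G) * q →
      ((σ x z' : Z) : G) = ((σ (q * x * q⁻¹) z : Z) : G) * q)

/-- CH: a countable chain of extension steps. -/
def S_CH : Prop := ∀ (B Q X : Type) [Group Q] [Finite Q] [MulAction Q X]
  (φ : Q →* MulAut (FreeGroup B)) (S C : Set B), Cld φ S → C.Finite →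
  ∀ θ : KS φ (S ∪ C) →* FreeGroup X, EqvOn φ (KS φ (S ∪ C)) θ →
    ∃ (S' : Set B) (_ : S ∪ C ⊆ S') (_ : Cld φ S') (θ' : KS φ S' →* FreeGroup X),
      EqvOn φ (KS φ S') θ' ∧
      ∀ (x : FreeGroup B) (h : x ∈ KS φ (S ∪ C)) (h' : x ∈ KS φ S'), θ' ⟨x, h'⟩ = θ ⟨x, h⟩

end Pool.Agent.N116.LR
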